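import Pool.Agent.MP_954c34_an.Sharp.Defs

open MeasureTheory Set

noncomputable section

namespace Pool.Agent.MP_954c34_an

/-- The Sobolev-Slobodeckij seminorm of `F` in `W^{1/q, q}(0, T; X)` is finite:
`∫₀ᵀ ∫₀ᵀ ‖F(t) - F(s)‖^q / |t - s|² ds dt < ∞`. For `q = 2` this is the `H^{1/2}` seminorm. -/
def FiniteSeminorm {X : Type} [NormedAddCommGroup X] (T q : ℝ) (F : ℝ → X) : Prop :=
  ∫⁻ t in Ioo 0 T, ∫⁻ s in Ioo 0 T, ENNReal.ofReal (‖F t - F s‖ ^ q / (t - s) ^ 2) < ⊤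

end Pool.Agent.MP_954c34_an
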